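import Pool.Agent.X129.Trade3

/-!
# MP_2bafa0_co: every `t ≥ 4` is unbounded

For `k ≥ 2` the game on `4 k + 1` voters with four types of weights
`k²+k+1, k²+k-1, k²-k+1, k²-k-1` and multiplicities `k-1, k, k+1, k+1`, in which a coalition wins
iff its weight exceeds `q = k (k²+k-1)`, or equals `q` and the number of its voters of the third
type is not `1`, is complete, has exactly four types, is `k`-trade robust and not `(k+1)`-trade
robust.  (At weight `q` the number of voters of the third type is `0`, `1` or `k+1`.)
Adding in turn a veto player and a passer gives every larger number of types.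
-/

namespace Pool.Agent.Results.MP_2bafa0_co.FourOrMoreTypes

open Pool.Agent.X129.Trade

/-- `t` is unbounded: for every `k ≥ 2` there is a complete simple game with exactly `t` types of
voters which is `k`-trade robust but not `(k+1)`-trade robust. -/
def Unbounded (t : ℕ) : Prop :=
  ∀ k : ℕ, 2 ≤ k → ∃ (N : Type) (_ : Fintype N) (_ : DecidableEq N) (G : Game N),
    G.Complete ∧ G.numTypes = t ∧ G.Robust k ∧ ¬ G.Robust (k + 1)

/-- Every `t ≥ 4` is unbounded. -/
theorem result : ∀ t : ℕ, 4 ≤ t → Unbounded t := by
  intro t ht k hk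
  obtain ⟨J, rfl⟩ : ∃ J, k = J + 2 := ⟨k - 2, by omega⟩
  obtain ⟨s, rfl⟩ : ∃ s, t = s + 4 := ⟨t - 4, by omega⟩
  obtain ⟨N, i1, i2, G, h1, h2, h3, h4, -⟩ := all_types J s
  exact ⟨N, i1, i2, G, h1, h2, h3, h4⟩

end Pool.Agent.Results.MP_2bafa0_co.FourOrMoreTypes
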